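import Pool.Agent.H39.TO.Targets

/-!
# Row CLS of the board `toh_modules` (MP_397744_co)
-/

set_option autoImplicit false

namespace Pool.Agent.H35.TOH

open Pool.Agent.H57.CP Pool.Agent.H39.TO

theorem aa_fl (K : Geo) (i : Fin 3) (Φ Ψ : Fg) (h : AA K i Φ Ψ) : Fl K Φ ∧ Fl K Ψ := by
  fin_cases i
  · exact ⟨h.1, h.2.1⟩
  · exact ⟨h.1, h.2.1⟩
  · exact ⟨h.1, h.2.1⟩

theorem aa_symm (K : Geo) (i : Fin 3) (Φ Ψ : Fg) (h : AA K i Φ Ψ) : AA K i Ψ Φ := by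
  fin_cases i
  · exact ⟨h.2.1, h.1, h.2.2.1.symm, h.2.2.2.1.symm, h.2.2.2.2.symm⟩
  · exact ⟨h.2.1, h.1, h.2.2.1.symm, h.2.2.2.1.symm, h.2.2.2.2.symm⟩
  · exact ⟨h.2.1, h.1, h.2.2.1.symm, h.2.2.2.1.symm, h.2.2.2.2.symm⟩

theorem aa_act (hB : T_FLB) (K : Geo) (g : Equiv.Perm H3) (hg : Sy K g) (i : Fin 3) (Φ Ψ : Fg)
    (h : AA K i Φ Ψ) : AA K i (Pool.Agent.H57.CP.act g Φ) (Pool.Agent.H57.CP.act g Ψ) := by
  have hb := hB K g hg Φ Ψ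
  fin_cases i
  · exact hb.2.1 h
  · exact hb.2.2.1 h
  · exact hb.2.2.2 h

theorem aa_uniq (hA : T_FLA) (K : Geo) (hK : IsGeo K) (i : Fin 3) (Φ Ψ Ψ' : Fg)
    (h : AA K i Φ Ψ) (h' : AA K i Φ Ψ') : Ψ = Ψ' := by
  have ha := hA K hK Φ (aa_fl K i Φ Ψ h).1
  fin_cases i
  · exact ha.1.unique h h'
  · exact ha.2.1.unique h h'
  · exact ha.2.2.unique h h'

theorem pf_CLS (hA : T_FLA) (hB : T_FLB) (hC : T_FLC) (hE : T_EQV) : T_CLS := by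
  intro K hK hT
  obtain ⟨er, es, et, -⟩ := hE K
  have first : ∀ i, In K i ∨ Out K i := by
    intro i
    by_cases hin : In K i
    · exact Or.inl hin
    right
    unfold In at hin
    push Not at hin
    obtain ⟨Φ, Ψ, hadj, hne⟩ := hin
    intro Φ₁ Ψ₁ h1 h2
    have f1 := aa_fl K i Φ Ψ hadj
    have f2 := aa_fl K i Φ₁ Ψ₁ h1
    rcases hT.le_two Φ Ψ Φ₁ f1.1 f1.2 f2.1 with h | h | h
    · exact hne h
    · obtain ⟨g, hg, hgm⟩ := id h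
      have h3 := aa_act hB K g hg i Ψ Φ (aa_symm K i Φ Ψ hadj)
      rw [hgm] at h3
      have h4 := aa_uniq hA K hK i Φ₁ _ _ h3 h1
      have h5 : Eqv K Φ Ψ₁ := ⟨g, hg, h4⟩
      exact hne (et _ _ _ h5 (et _ _ _ (es _ _ h2) (es _ _ h)))
    · obtain ⟨g, hg, hgm⟩ := id h
      have h3 := aa_act hB K g hg i Φ Ψ hadj
      rw [hgm] at h3
      have h4 := aa_uniq hA K hK i Φ₁ _ _ h3 h1
      have h5 : Eqv K Ψ Ψ₁ := ⟨g, hg, h4⟩
      exact hne (et _ _ _ h (et _ _ _ h2 (es _ _ h5)))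
  refine ⟨first, ?_⟩
  by_contra hno
  push Not at hno
  have all : ∀ i, In K i := fun i => (first i).resolve_right (hno i)
  obtain ⟨Φ, Ψ, f1, f2, hne⟩ := hT.two
  apply hne
  have hchain := hC K hK Φ Ψ f1 f2
  clear hne f2
  induction hchain with
  | refl => exact er _
  | tail _ hstep ih =>
    refine et _ _ _ ih ?_
    rcases hstep with h | h | h
    · exact all 0 _ _ h
    · exact all 1 _ _ h
    · exact all 2 _ _ h

end Pool.Agent.H35.TOH
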