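import Pool.Agent.H39.TO.Targets

/-!
# Row PLN of the board `toh_modules` (MP_397744_co)
-/

set_option autoImplicit false

namespace Pool.Agent.H35.TOH.PLN

open Pool.Agent.H57.CP Pool.Agent.H39.TO

theorem mk_comm' (x y : V4) : mk x y = mk y x := by unfold mk; ring

theorem mk_add_l (x y z : V4) : mk (x + y) z = mk x z + mk y z := by
  unfold mk; simp only [Pi.add_apply]; ring

theorem mk_smul_l (t : ℝ) (x z : V4) : mk (t • x) z = t * mk x z := by
  unfold mk; simp only [Pi.smul_apply, smul_eq_mul]; ring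

theorem mk_smul_r (t : ℝ) (x z : V4) : mk z (t • x) = t * mk z x := by
  rw [mk_comm', mk_smul_l, mk_comm']

theorem mk_sum_l {ι : Type} (s : Finset ι) (f : ι → V4) (z : V4) :
    mk (∑ i ∈ s, f i) z = ∑ i ∈ s, mk (f i) z := by
  classical
  induction s using Finset.induction_on with
  | empty => simp [mk]
  | insert a s ha ih => rw [Finset.sum_insert ha, Finset.sum_insert ha, mk_add_l, ih]

theorem lor_one : Lor (1 : Module.End ℝ V4) := ⟨fun _ _ => rfl, fun x => x.2.2⟩

theorem lor_mul {A B : Module.End ℝ V4} (hA : Lor A) (hB : Lor B) : Lor (A * B) := by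
  refine ⟨fun x y => ?_, fun x => ?_⟩
  · show mk (A (B x)) (A (B y)) = mk x y
    rw [hA.1, hB.1]
  · exact hA.2 ⟨B x.1, by rw [hB.1]; exact x.2.1, hB.2 x⟩

theorem lor_pow {A : Module.End ℝ V4} (hA : Lor A) : ∀ m : ℕ, Lor (A ^ m)
  | 0 => by rw [pow_zero]; exact lor_one
  | m + 1 => by rw [pow_succ]; exact lor_mul (lor_pow hA m) hA

theorem iso_mul {g h : Equiv.Perm H3} (hg : IsIso g) (hh : IsIso h) : IsIso (g * h) :=
  fun x y => by
    show ch (g (h x)) (g (h y)) = ch x y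
    rw [hg, hh]

theorem iso_inv {g : Equiv.Perm H3} (hg : IsIso g) : IsIso g⁻¹ := fun x y => by
  have h := hg (g⁻¹ x) (g⁻¹ y)
  rw [← Equiv.Perm.mul_apply, ← Equiv.Perm.mul_apply, mul_inv_cancel, Equiv.Perm.one_apply,
    Equiv.Perm.one_apply] at h
  exact h.symm

theorem iso_pow {g : Equiv.Perm H3} (hg : IsIso g) : ∀ m : ℕ, IsIso (g ^ m)
  | 0 => by rw [pow_zero]; exact fun _ _ => rfl
  | m + 1 => by rw [pow_succ]; exact iso_mul (iso_pow hg m) hg

theorem ext_pow {A : Module.End ℝ V4} {S : Equiv.Perm H3} (h : Ext A S) :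
    ∀ (m : ℕ) (x : H3), (A ^ m) x.1 = ((S ^ m) x).1
  | 0, x => by rw [pow_zero, pow_zero]; rfl
  | m + 1, x => by
    rw [pow_succ, pow_succ]
    show (A ^ m) (A x.1) = ((S ^ m) (S x)).1
    rw [h x, ext_pow h m]

theorem rot_e2 (t : ℝ) : rot t 1 e2 = e2 := by
  ext i
  fin_cases i <;> simp [rot, e2]

theorem pf_PLN (hEXT : T_EXT) (hSPN : T_SPN) (hTRV : T_TRV) (hOAX : T_OAX) (hDET : T_DET)
    (hCTR : T_CTR) : T_PLN := by
  intro S v p hS hodd hp hper
  obtain ⟨A, hA, hAe⟩ := hEXT S hS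
  have hSp : (S ^ p) v = v := (hper p).2 dvd_rfl
  set D : Module.End ℝ V4 := A ^ (p + 1) with hD
  have hDL : Lor D := lor_pow hA _
  have hDe : ∀ x : H3, D x.1 = ((S ^ (p + 1)) x).1 := fun x => ext_pow hAe (p + 1) x
  have hx : ∀ k : ℕ, D ((S ^ k) v).1 = ((S ^ (k + 1)) v).1 := by
    intro k
    rw [hDe]
    congr 1
    rw [← Equiv.Perm.mul_apply, ← pow_add]
    have e : p + 1 + k = (k + 1) + p := by omega
    rw [e, pow_add, Equiv.Perm.mul_apply, hSp]
  set c : V4 := ∑ k ∈ Finset.range p, ((S ^ k) v).1 with hc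
  have hDc : D c = c := by
    rw [hc, map_sum]
    have e1 : ∑ k ∈ Finset.range p, D ((S ^ k) v).1 =
        ∑ k ∈ Finset.range p, ((S ^ (k + 1)) v).1 := Finset.sum_congr rfl fun k _ => hx k
    rw [e1]
    have e2' := Finset.sum_range_succ (fun k => ((S ^ k) v).1) p
    have e3 := Finset.sum_range_succ' (fun k => ((S ^ k) v).1) p
    rw [hSp] at e2'
    rw [e2', pow_zero] at e3
    have e4 : ((1 : Equiv.Perm H3) v).1 = v.1 := rfl
    rw [e4] at e3
    exact (add_right_cancel e3).symm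
  have ne : (Finset.range p).Nonempty := ⟨0, Finset.mem_range.2 (by omega)⟩
  have hcc : 0 < mk c c := by
    rw [hc, mk_sum_l]
    refine Finset.sum_pos (fun k _ => ?_) ne
    rw [mk_comm', mk_sum_l]
    refine Finset.sum_pos (fun l _ => ?_) ne
    have := (hCTR ((S ^ l) v) ((S ^ k) v) v).1
    unfold ch at this
    linarith
  have hc3 : 0 < c 3 := by
    rw [hc, Finset.sum_apply]
    exact Finset.sum_pos (fun k _ => ((S ^ k) v).2.2) ne
  set R := √(mk c c) with hR
  have hRp : 0 < R := Real.sqrt_pos.2 hcc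
  have hRR : R * R = mk c c := Real.mul_self_sqrt hcc.le
  let c0 : H3 := ⟨R⁻¹ • c, by
    rw [mk_smul_l, mk_smul_r, ← hRR]
    field_simp, by
    rw [Pi.smul_apply, smul_eq_mul]
    positivity⟩
  have c0v : c0.1 = R⁻¹ • c := rfl
  have hc0 : (S ^ (p + 1)) c0 = c0 := by
    apply Subtype.ext
    rw [← hDe, c0v, map_smul, hDc]
  obtain ⟨C1, hC1, hC1o⟩ := hTRV c0
  have hC1' : C1⁻¹ o = c0 := by
    rw [← hC1o, ← Equiv.Perm.mul_apply, inv_mul_cancel, Equiv.Perm.one_apply]
  have hgo : (C1 * S ^ (p + 1) * C1⁻¹) o = o := by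
    rw [Equiv.Perm.mul_apply, Equiv.Perm.mul_apply, hC1', hc0, hC1o]
  obtain ⟨C2, t, d, hC2, hC2o, hd, hrot⟩ := hOAX (C1 * S ^ (p + 1) * C1⁻¹)
    (iso_mul (iso_mul hC1 (iso_pow hS _)) (iso_inv hC1)) hgo
  obtain ⟨B, hB, hBe⟩ := hEXT (C2 * C1) (iso_mul hC2 hC1)
  obtain ⟨B', hB', hBe'⟩ := hEXT (C2 * C1)⁻¹ (iso_inv (iso_mul hC2 hC1))
  have hBB : (B : Module.End ℝ V4) * B' = 1 := by
    apply hSPN
    intro x
    show B (B' x.1) = x.1
    rw [hBe' x, hBe, ← Equiv.Perm.mul_apply, mul_inv_cancel, Equiv.Perm.one_apply]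
  have hBB' : (B' : Module.End ℝ V4) * B = 1 := by
    apply hSPN
    intro x
    show B' (B x.1) = x.1
    rw [hBe x, hBe', ← Equiv.Perm.mul_apply, inv_mul_cancel, Equiv.Perm.one_apply]
  have hrE : rot t d = (B : Module.End ℝ V4) * D * B' := by
    apply hSPN
    intro x
    rw [hrot x]
    show _ = B (D (B' x.1))
    rw [hBe' x, hDe, hBe, ← Equiv.Perm.mul_apply, ← Equiv.Perm.mul_apply]
    congr 2
  have hdet : d = LinearMap.det D := by
    have h1 := (hDET.1 t d).1
    rw [hrE, map_mul, map_mul] at h1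
    have h2 : LinearMap.det (B : Module.End ℝ V4) * LinearMap.det (B' : Module.End ℝ V4) = 1 := by
      rw [← map_mul, hBB, map_one]
    calc d = LinearMap.det (B : Module.End ℝ V4) * LinearMap.det D *
          LinearMap.det (B' : Module.End ℝ V4) := h1.symm
      _ = LinearMap.det D * (LinearMap.det (B : Module.End ℝ V4) *
          LinearMap.det (B' : Module.End ℝ V4)) := by ring
      _ = LinearMap.det D := by rw [h2, mul_one]
  have hd1 : d = 1 := by
    rcases hd with h | h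
    · exact h
    · exfalso
      obtain ⟨q, hq⟩ := hodd
      have e1 : LinearMap.det D = (LinearMap.det (A : Module.End ℝ V4) ^ (q + 1)) ^ 2 := by
        rw [hD, map_pow, ← pow_mul]
        congr 1
        omega
      rw [h, e1] at hdet
      have := sq_nonneg (LinearMap.det (A : Module.End ℝ V4) ^ (q + 1))
      linarith
  subst hd1
  have hDu : D (B' e2) = B' e2 := by
    have h1 : B (D (B' e2)) = e2 := by
      have h2 : ((B : Module.End ℝ V4) * D * B') e2 = rot t 1 e2 := by rw [hrE]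
      rw [rot_e2] at h2
      exact h2
    have h3 : B' (B (D (B' e2))) = D (B' e2) := by
      have h4 : ((B' : Module.End ℝ V4) * B) (D (B' e2)) = D (B' e2) := by rw [hBB']; rfl
      exact h4
    rw [← h3, h1]
  have hcu : mk c (B' e2) = 0 := by
    have h1 : (C2 * C1)⁻¹ o = c0 := by
      have h2 : (C2 * C1) c0 = o := by rw [Equiv.Perm.mul_apply, hC1o, hC2o]
      rw [← h2, ← Equiv.Perm.mul_apply, inv_mul_cancel, Equiv.Perm.one_apply]
    have h2 : B' o.1 = R⁻¹ • c := by rw [hBe' o, h1]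
    have h3 : c = R • B' o.1 := by
      rw [h2, smul_smul, mul_inv_cancel₀ hRp.ne', one_smul]
    rw [h3, mk_smul_l, hB'.1]
    have h4 : mk o.1 e2 = 0 := by simp [mk, o, e2]
    rw [h4, mul_zero]
  have hk : ∀ k : ℕ, mk ((S ^ k) v).1 (B' e2) = mk v.1 (B' e2) := by
    intro k
    induction k with
    | zero => rfl
    | succ k ih => rw [← hx k, ← ih, ← hDL.1 ((S ^ k) v).1 (B' e2), hDu]
  have hv0 : mk v.1 (B' e2) = 0 := by
    have h1 : mk c (B' e2) = p * mk v.1 (B' e2) := by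
      rw [hc, mk_sum_l, Finset.sum_congr rfl (fun k _ => hk k), Finset.sum_const,
        Finset.card_range, nsmul_eq_mul]
    rw [hcu] at h1
    have h2 : (p : ℝ) ≠ 0 := by
      have : p ≠ 0 := by omega
      exact_mod_cast this
    exact (mul_eq_zero.1 h1.symm).resolve_left h2
  refine ⟨D, c, B' e2, hDL, ?_, hDe, hdet.symm, hDc, hc, hcc, ?_, hDu, hcu, ?_⟩
  · intro x hxp
    rw [hDe, pow_succ', Equiv.Perm.mul_apply, hxp]
  · rw [hB'.1]
    simp [mk, e2]
  · intro k
    rw [hk, hv0]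

end Pool.Agent.H35.TOH.PLN
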